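import Pool.Agent.Helper53_RF.MR2

/-!
# Module MR (helper53), part 3: the time derivative and the assembly
-/

noncomputable section

open scoped ContDiff Topology
set_option maxSynthPendingDepth 3
set_option linter.unusedSectionVars false
set_option autoImplicit false
open Set Metric MeasureTheory Filter

namespace Pool.Agent.RF.H53

open Pool.Agent.RF

variable {𝓔 : Type} [NormedAddCommGroup 𝓔] [NormedSpace ℝ 𝓔] {Γ A : Type} [Fintype A]
variable (R : RotSys 𝓔 Γ A) (H : Heat R)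

/-- The source term of the Duhamel formula. -/
theorem source_deriv [CompleteSpace 𝓔] {f : ℝ → 𝓔} (hf : Continuous f) (t : ℝ) :
    HasDerivWithinAt (fun u => ∫ r in t..u, H.S (u - r) (f r)) (f t) (Ici t) t := by
  rw [hasDerivWithinAt_iff_isLittleO, Asymptotics.isLittleO_iff]
  intro c hc
  have hjc := S_jc0 R H (0, f t) ⟨mem_Ici.2 le_rfl, mem_univ _⟩
  rw [Metric.continuousWithinAt_iff] at hjc
  obtain ⟨δ, hδ, hball⟩ := hjc c hc
  obtain ⟨η, hη, hfη⟩ := Metric.continuousAt_iff.1 hf.continuousAt δ hδ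
  have hnear : ∀ᶠ u in 𝓝[Ici t] t, u < t + min δ η :=
    mem_nhdsWithin_of_mem_nhds (Iio_mem_nhds (by have := lt_min hδ hη; linarith))
  filter_upwards [hnear, self_mem_nhdsWithin] with u hu hut
  have hut' : t ≤ u := hut
  rw [intervalIntegral.integral_same, sub_zero]
  have hcont : ContinuousOn (fun r => H.S (u - r) (f r)) (uIcc t u) := by
    rw [uIcc_of_le hut']
    refine (S_jc0 R H).comp (f := fun r : ℝ => (u - r, f r)) (by fun_prop) ?_
    intro r hr
    exact ⟨mem_Ici.2 (by linarith [hr.2]), mem_univ _⟩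
  have e : (∫ r in t..u, H.S (u - r) (f r)) - (u - t) • f t =
      ∫ r in t..u, (H.S (u - r) (f r) - f t) := by
    rw [intervalIntegral.integral_sub hcont.intervalIntegrable (by simp),
      intervalIntegral.integral_const]
  rw [e, Real.norm_eq_abs]
  refine intervalIntegral.norm_integral_le_of_norm_le_const fun r hr => ?_
  rw [uIoc_of_le hut'] at hr
  have h1 : u - r < δ := by have := min_le_left δ η; linarith [hr.1]
  have h2 : dist (f r) (f t) < δ := hfη (by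
    rw [Real.dist_eq, abs_of_pos (by linarith [hr.1])]
    have := min_le_right δ η
    linarith [hr.2])
  have h3 : dist ((u - r, f r) : ℝ × 𝓔) (0, f t) < δ := by
    rw [Prod.dist_eq, max_lt_iff]
    refine ⟨?_, h2⟩
    rw [Real.dist_eq, sub_zero, abs_of_nonneg (by linarith [hr.2])]
    exact h1
  have h4 := hball (x := (u - r, f r)) ⟨mem_Ici.2 (by linarith [hr.2]), mem_univ _⟩ h3
  rw [H.S_zero, dist_eq_norm] at h4
  exact h4.le

/-- The right derivative of the Duhamel integral. -/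
theorem right_deriv [CompleteSpace 𝓔] {f : ℝ → 𝓔} (hf : Continuous f) {t : ℝ} (ht : 0 ≤ t)
    {va vaa : A → 𝓔} (h1 : ∀ a, R.HasGen (R.J a) (∫ r in (0 : ℝ)..t, H.S (t - r) (f r)) (va a))
    (h2 : ∀ a, R.HasGen (R.J a) (va a) (vaa a)) :
    HasDerivWithinAt (fun u => ∫ r in (0 : ℝ)..u, H.S (u - r) (f r)) (∑ a, vaa a + f t)
      (Ici t) t := by
  obtain ⟨x, hx⟩ : ∃ x, x = ∫ r in (0 : ℝ)..t, H.S (t - r) (f r) := ⟨_, rfl⟩
  rw [← hx] at h1
  have h3 := H.heat x va vaa h1 h2 0 le_rfl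
  rw [H.S_zero] at h3
  have h4 : HasDerivWithinAt (fun u => H.S (u - t) x) (∑ a, vaa a) (Ici t) t := by
    have h5 : HasDerivWithinAt (fun u : ℝ => u - t) 1 (Ici t) t :=
      ((hasDerivAt_id t).sub_const t).hasDerivWithinAt
    have h6 : MapsTo (fun u : ℝ => u - t) (Ici t) (Ici 0) := fun u hu => by
      have : t ≤ u := hu
      exact mem_Ici.2 (by linarith)
    have h7 := HasDerivWithinAt.scomp (h := fun u : ℝ => u - t) (g₁ := fun t => H.S t x)
      (t' := Ici 0) (h' := 1) t (by rw [sub_self]; exact h3) h5 h6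
    rwa [one_smul] at h7
  have h8 := h4.add (source_deriv R H hf t)
  have heq : ∀ u, t ≤ u → (∫ r in (0 : ℝ)..u, H.S (u - r) (f r)) =
      H.S (u - t) x + ∫ r in t..u, H.S (u - r) (f r) := by
    intro u hu
    have hcont : ∀ a b : ℝ, a ≤ b → b ≤ u →
        IntervalIntegrable (fun r => H.S (u - r) (f r)) volume a b := by
      intro a b hab hbu
      refine ContinuousOn.intervalIntegrable ?_
      rw [uIcc_of_le hab]
      refine (S_jc0 R H).comp (f := fun r : ℝ => (u - r, f r)) (by fun_prop) ?_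
      intro r hr
      exact ⟨mem_Ici.2 (by linarith [hr.2]), mem_univ _⟩
    have hcont' : IntervalIntegrable (fun r => H.S (t - r) (f r)) volume 0 t := by
      refine ContinuousOn.intervalIntegrable ?_
      rw [uIcc_of_le ht]
      refine (S_jc0 R H).comp (f := fun r : ℝ => (t - r, f r)) (by fun_prop) ?_
      intro r hr
      exact ⟨mem_Ici.2 (by linarith [hr.2]), mem_univ _⟩
    rw [← intervalIntegral.integral_add_adjacent_intervals (hcont 0 t ht hu) (hcont t u hu le_rfl),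
      hx, ← (H.S (u - t)).intervalIntegral_comp_comm hcont']
    congr 1
    refine intervalIntegral.integral_congr fun r hr => ?_
    rw [uIcc_of_le ht] at hr
    change H.S (u - r) (f r) = H.S (u - t) (H.S (t - r) (f r))
    rw [← H.S_add _ _ (by linarith) (by linarith [hr.2]), sub_add_sub_cancel]
  refine h8.congr (fun u hu => heq u hu) (heq t le_rfl)

/-- The main statement for a globally defined source. -/
theorem main_global [CompleteSpace 𝓔] {T : ℝ} (hT : 0 < T) (hT1 : T ≤ 1) {M : ℝ} {f : ℝ → 𝓔}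
    (hf : Continuous f) (hM : ∀ r, Hol R M (f r)) :
      let C : ℝ := 64 + 32 * Fintype.card A
      let v : ℝ → 𝓔 := fun t => ∫ r in (0:ℝ)..t, H.S (t - r) (f r)
      let va : A → ℝ → 𝓔 := fun a => conv (H.Y a) f
      let vab : A → A → ℝ → 𝓔 := fun a b => conv (ZZ R H a b) f
      ContinuousOn v (Icc 0 T) ∧ (∀ a, ContinuousOn (va a) (Icc 0 T)) ∧
      (∀ a b, ContinuousOn (vab a b) (Icc 0 T)) ∧
      (∀ t ∈ Icc 0 T, (∀ a, R.HasGen (R.J a) (v t) (va a t)) ∧
        (∀ a b, R.HasGen (R.J a) (va b t) (vab a b t)) ∧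
        HasDerivWithinAt v (∑ a, vab a a t + f t) (Icc 0 T) t ∧
        ‖v t‖ ≤ C * M * T ^ (1/4 : ℝ) ∧ (∀ a, ‖va a t‖ ≤ C * M * T ^ (1/4 : ℝ)) ∧
        (∀ a b, ‖vab a b t‖ ≤ C * M * T ^ (1/4 : ℝ)) ∧
        ∀ g, ∀ s ∈ Icc (0:ℝ) 1,
          ‖R.T g s (v t) - v t‖ ≤ C * M * T ^ (1/4 : ℝ) * √s ∧
          (∀ a, ‖R.T g s (va a t) - va a t‖ ≤ C * M * T ^ (1/4 : ℝ) * √s) ∧
          (∀ a b, ‖R.T g s (vab a b t) - vab a b t‖ ≤ C * M * √s)) := by
  intro C v va vab
  have hM0 : 0 ≤ M := (norm_nonneg _).trans (hM 0).1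
  have hA0 : (0 : ℝ) ≤ Fintype.card A := Nat.cast_nonneg _
  have hC : C = 64 + 32 * Fintype.card A := rfl
  -- the bounds
  have bS : ∀ τ, 0 < τ → τ ≤ 1 → ∀ r, ‖H.S τ (f r)‖ ≤ M * τ ^ (-0 : ℝ) := by
    intro τ h1 _ r
    rw [neg_zero, Real.rpow_zero, mul_one]
    exact (H.norm_S τ h1.le _).trans (hM r).1
  have bY : ∀ a τ, 0 < τ → τ ≤ 1 → ∀ r, ‖H.Y a τ (f r)‖ ≤ 2 * M * τ ^ (-(1 / 4) : ℝ) :=
    fun a τ h1 h2 r => Y_hol R H a (hM r) h1 h2
  have bZ : ∀ a b τ, 0 < τ → τ ≤ 1 → ∀ r, ‖ZZ R H a b τ (f r)‖ ≤ 4 * M * τ ^ (-(3 / 4) : ℝ) :=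
    fun a b τ h1 h2 r => ZZ_hol R H a b (hM r) h1 h2
  have hv : ∀ t, v t = conv H.S f t := fun t => (conv_eq H.S f t).symm
  have hv' : v = conv H.S f := funext hv
  have iS : ∀ t ∈ Icc 0 T, IntegrableOn (fun τ => H.S τ (f (t - τ))) (Ioc 0 t) := fun t ht =>
    conv_int (S_jc R H) hf (by norm_num) bS ht.1 (ht.2.trans hT1)
  have iY : ∀ t ∈ Icc 0 T, ∀ a, IntegrableOn (fun τ => H.Y a τ (f (t - τ))) (Ioc 0 t) :=
    fun t ht a => conv_int (Y_jc R H a) hf (by norm_num) (bY a) ht.1 (ht.2.trans hT1)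
  have iZ : ∀ t ∈ Icc 0 T, ∀ a b, IntegrableOn (fun τ => ZZ R H a b τ (f (t - τ))) (Ioc 0 t) :=
    fun t ht a b => conv_int (ZZ_jc R H a b) hf (by norm_num) (bZ a b) ht.1 (ht.2.trans hT1)
  have cS : ContinuousOn v (Icc 0 T) := by
    rw [hv']; exact conv_continuousOn (S_jc R H) hf (by norm_num) bS hT1
  have cY : ∀ a, ContinuousOn (va a) (Icc 0 T) := fun a =>
    conv_continuousOn (Y_jc R H a) hf (by norm_num) (bY a) hT1
  have cZ : ∀ a b, ContinuousOn (vab a b) (Icc 0 T) := fun a b =>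
    conv_continuousOn (ZZ_jc R H a b) hf (by norm_num) (bZ a b) hT1
  have gS : ∀ t ∈ Icc 0 T, ∀ g, R.HasGen g (v t) (∑ c, R.c g c • va c t) := by
    intro t ht g
    rw [hv]
    exact conv_gen R ht.1 (iS t ht) (iY t ht) fun τ hτ x => H.gen_dir g τ hτ x
  have gY : ∀ t ∈ Icc 0 T, ∀ g b, R.HasGen g (va b t) (∑ c, R.c g c • vab c b t) := by
    intro t ht g b
    exact conv_gen R ht.1 (iY t ht b) (fun c => iZ t ht c b) fun τ hτ x => Y_gen_dir R H g b hτ x
  have gS1 : ∀ t ∈ Icc 0 T, ∀ a, R.HasGen (R.J a) (v t) (va a t) := by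
    intro t ht a
    rw [hv]
    have := conv_gen R (B := Unit) (c := fun _ => (1 : ℝ)) (Z' := fun _ => H.Y a) ht.1 (iS t ht)
      (fun _ => iY t ht a) (g := R.J a) fun τ hτ x => by
        rw [Fintype.sum_unique, one_smul]; exact H.gen_Y a τ hτ x
    rwa [Fintype.sum_unique, one_smul] at this
  have gY1 : ∀ t ∈ Icc 0 T, ∀ a b, R.HasGen (R.J a) (va b t) (vab a b t) := by
    intro t ht a b
    have := conv_gen R (B := Unit) (c := fun _ => (1 : ℝ)) (Z' := fun _ => ZZ R H a b) ht.1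
      (iY t ht b) (fun _ => iZ t ht a b) (g := R.J a) fun τ hτ x => by
        rw [Fintype.sum_unique, one_smul]; exact Y_gen R H a b hτ x
    rwa [Fintype.sum_unique, one_smul] at this
  have hTq : ∀ {β : ℝ}, 1 / 4 ≤ β → ∀ t ∈ Icc 0 T, t ^ β ≤ T ^ (1 / 4 : ℝ) := by
    intro β hβ t ht
    calc t ^ β ≤ T ^ β := Real.rpow_le_rpow ht.1 ht.2 (by linarith)
      _ ≤ T ^ (1 / 4 : ℝ) := Real.rpow_le_rpow_of_exponent_ge hT hT1 hβ
  have hTp : 0 ≤ T ^ (1 / 4 : ℝ) := Real.rpow_nonneg hT.le _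
  have nS : ∀ t ∈ Icc 0 T, ‖v t‖ ≤ M * T ^ (1 / 4 : ℝ) := by
    intro t ht
    rw [hv]
    refine (conv_norm (S_jc R H) hf (by norm_num) bS ht.1 (ht.2.trans hT1)).trans ?_
    rw [sub_zero, div_one]
    exact mul_le_mul_of_nonneg_left (hTq (by norm_num) t ht) hM0
  have nY : ∀ t ∈ Icc 0 T, ∀ a, ‖va a t‖ ≤ 3 * M * T ^ (1 / 4 : ℝ) := by
    intro t ht a
    refine (conv_norm (Y_jc R H a) hf (by norm_num) (bY a) ht.1 (ht.2.trans hT1)).trans ?_
    have h1 := hTq (β := 1 - 1 / 4) (by norm_num) t ht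
    have h2 : 0 ≤ t ^ (1 - 1 / 4 : ℝ) := Real.rpow_nonneg ht.1 _
    calc 2 * M * (t ^ (1 - 1 / 4 : ℝ) / (1 - 1 / 4)) = (8 / 3) * (M * t ^ (1 - 1 / 4 : ℝ)) := by ring
      _ ≤ (8 / 3) * (M * T ^ (1 / 4 : ℝ)) := by gcongr
      _ ≤ 3 * (M * T ^ (1 / 4 : ℝ)) := by
          refine mul_le_mul_of_nonneg_right (by norm_num) (by positivity)
      _ = _ := by ring
  have nZ : ∀ t ∈ Icc 0 T, ∀ a b, ‖vab a b t‖ ≤ 16 * M * T ^ (1 / 4 : ℝ) := by
    intro t ht a b
    refine (conv_norm (ZZ_jc R H a b) hf (by norm_num) (bZ a b) ht.1 (ht.2.trans hT1)).trans ?_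
    have h1 := hTq (β := 1 - 3 / 4) (by norm_num) t ht
    calc 4 * M * (t ^ (1 - 3 / 4 : ℝ) / (1 - 3 / 4)) = 16 * M * t ^ (1 - 3 / 4 : ℝ) := by ring
      _ ≤ 16 * M * T ^ (1 / 4 : ℝ) := mul_le_mul_of_nonneg_left h1 (by positivity)
  -- the source plus the second derivatives
  obtain ⟨L, hL⟩ : ∃ L : ℝ → 𝓔, L = fun t => ∑ a, vab a a t + f t := ⟨_, rfl⟩
  have hLc : ContinuousOn L (Icc 0 T) := by
    rw [hL]
    exact (continuousOn_finsetSum _ fun a _ => cZ a a).add hf.continuousOn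
  obtain ⟨G, hG⟩ : ∃ G : ℝ → 𝓔, G = IccExtend hT.le ((Icc 0 T).domRestrict L) := ⟨_, rfl⟩
  have hGc : Continuous G := by
    rw [hG]; exact (continuousOn_iff_continuous_domRestrict.1 hLc).Icc_extend'
  have hGL : ∀ t ∈ Icc 0 T, G t = L t := fun t ht => by
    rw [hG, IccExtend_of_mem _ _ ht]; rfl
  have hGd : ∀ t, HasDerivAt (fun u => ∫ r in (0 : ℝ)..u, G r) (G t) t := fun t =>
    intervalIntegral.integral_hasDerivAt_right (hGc.intervalIntegrable _ _)
      hGc.stronglyMeasurable.stronglyMeasurableAtFilter hGc.continuousAt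
  have hconst : ∀ t ∈ Icc 0 T, v t = ∫ r in (0 : ℝ)..t, G r := by
    have h1 : ContinuousOn (fun t => v t - ∫ r in (0 : ℝ)..t, G r) (Icc 0 T) :=
      cS.sub fun t _ => (hGd t).continuousAt.continuousWithinAt
    have h2 : ∀ t ∈ Ico 0 T, HasDerivWithinAt (fun t => v t - ∫ r in (0 : ℝ)..t, G r) 0
        (Ici t) t := by
      intro t ht
      have ht' : t ∈ Icc 0 T := ⟨ht.1, ht.2.le⟩
      have h3 := (right_deriv R H hf ht.1 (gS1 t ht') fun a => gY1 t ht' a a).sub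
        (hGd t).hasDerivWithinAt
      rw [hGL t ht', hL, sub_self] at h3
      exact h3
    have h3 := constant_of_has_deriv_right_zero h1 h2
    intro t ht
    have h4 := h3 t ht
    have h5 : v 0 = 0 := intervalIntegral.integral_same
    simp only [h5, intervalIntegral.integral_same, sub_self] at h4
    exact sub_eq_zero.1 h4
  refine ⟨cS, cY, cZ, fun t ht => ⟨gS1 t ht, gY1 t ht, ?_, ?_, ?_, ?_, ?_⟩⟩
  · have h1 : HasDerivWithinAt (fun u => ∫ r in (0 : ℝ)..u, G r) (L t) (Icc 0 T) t := by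
      rw [← hGL t ht]; exact (hGd t).hasDerivWithinAt
    rw [hL] at h1
    exact h1.congr (fun u hu => hconst u hu) (hconst t ht)
  · refine (nS t ht).trans ?_
    rw [hC]
    have : 0 ≤ M * T ^ (1 / 4 : ℝ) := by positivity
    nlinarith
  · intro a
    refine (nY t ht a).trans ?_
    rw [hC]
    have : 0 ≤ M * T ^ (1 / 4 : ℝ) := by positivity
    nlinarith
  · intro a b
    refine (nZ t ht a b).trans ?_
    rw [hC]
    have : 0 ≤ M * T ^ (1 / 4 : ℝ) := by positivity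
    nlinarith
  · intro g s hs
    have hss : s ≤ √s := Real.le_sqrt_of_sq_le (by nlinarith [hs.1, hs.2])
    have hsq : 0 ≤ √s := Real.sqrt_nonneg s
    have key : ∀ (x : 𝓔) (y : A → 𝓔) (B : ℝ), 0 ≤ B → (∀ c, ‖y c‖ ≤ B) →
        R.HasGen g x (∑ c, R.c g c • y c) → ‖R.T g s x - x‖ ≤ Fintype.card A * B * √s := by
      intro x y B hB hy hg
      have h0 := lip_gen R hg s 0
      rw [R.T_zero, sub_zero, abs_of_nonneg hs.1] at h0
      have h1 : ‖∑ c, R.c g c • y c‖ ≤ Fintype.card A * B := by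
        refine (norm_sum_le _ _).trans ?_
        calc ∑ c, ‖R.c g c • y c‖ ≤ ∑ _c : A, B := by
              refine Finset.sum_le_sum fun c _ => ?_
              rw [norm_smul, Real.norm_eq_abs]
              calc |R.c g c| * ‖y c‖ ≤ 1 * ‖y c‖ :=
                    mul_le_mul_of_nonneg_right (R.c_le g c) (norm_nonneg _)
                _ ≤ B := by rw [one_mul]; exact hy c
          _ = _ := by rw [Finset.sum_const, Finset.card_univ, nsmul_eq_mul]
      refine h0.trans (mul_le_mul h1 hss hs.1 (by positivity))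
    refine ⟨?_, fun a => ?_, fun a b => ?_⟩
    · refine (key (v t) (fun c => va c t) (3 * M * T ^ (1 / 4 : ℝ)) (by positivity)
        (nY t ht) (gS t ht g)).trans ?_
      refine mul_le_mul_of_nonneg_right ?_ hsq
      rw [hC]
      have : 0 ≤ M * T ^ (1 / 4 : ℝ) := by positivity
      have h2 : 0 ≤ (Fintype.card A : ℝ) * (M * T ^ (1 / 4 : ℝ)) := by positivity
      nlinarith
    · refine (key (va a t) (fun c => vab c a t) (16 * M * T ^ (1 / 4 : ℝ)) (by positivity)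
        (fun c => nZ t ht c a) (gY t ht g a)).trans ?_
      refine mul_le_mul_of_nonneg_right ?_ hsq
      rw [hC]
      have : 0 ≤ M * T ^ (1 / 4 : ℝ) := by positivity
      have h2 : 0 ≤ (Fintype.card A : ℝ) * (M * T ^ (1 / 4 : ℝ)) := by positivity
      nlinarith
    · exact conv_hol R H a b hf hM ht.1 (ht.2.trans hT1) g hs

/-- Module MR. -/
theorem maxReg : MaxRegStatement := by
  intro 𝓔 _ _ _ Γ A _ R H
  refine ⟨64 + 32 * Fintype.card A, by positivity, fun T hT hT1 M f hf hfM hfH => ?_⟩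
  obtain ⟨F, hF⟩ : ∃ F : ℝ → 𝓔, F = IccExtend hT.le ((Icc 0 T).domRestrict f) := ⟨_, rfl⟩
  have hFc : Continuous F := by
    rw [hF]; exact (continuousOn_iff_continuous_domRestrict.1 hf).Icc_extend'
  have hFf : ∀ t ∈ Icc 0 T, F t = f t := fun t ht => by
    rw [hF, IccExtend_of_mem _ _ ht]; rfl
  have hFM : ∀ r, Hol R M (F r) := by
    intro r
    have : F r = f (projIcc 0 T hT.le r) := by rw [hF]; rfl
    rw [this]
    exact ⟨hfM _ (projIcc 0 T hT.le r).2, fun g s hs => hfH _ (projIcc 0 T hT.le r).2 g s hs⟩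
  have hmain := main_global R H hT hT1 hFc hFM
  refine ⟨fun a => conv (H.Y a) F, fun a b => conv (ZZ R H a b) F, ?_⟩
  intro v
  have hvv : ∀ t ∈ Icc 0 T, v t = ∫ r in (0 : ℝ)..t, H.S (t - r) (F r) := by
    intro t ht
    refine intervalIntegral.integral_congr fun r hr => ?_
    rw [uIcc_of_le ht.1] at hr
    rw [hFf r ⟨hr.1, hr.2.trans ht.2⟩]
  obtain ⟨c1, c2, c3, h⟩ := hmain
  refine ⟨c1.congr hvv, c2, c3, fun t ht => ?_⟩
  obtain ⟨h1, h2, h3, h4, h5, h6, h7⟩ := h t ht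
  rw [hvv t ht]
  refine ⟨h1, h2, ?_, h4, h5, h6, h7⟩
  rw [hFf t ht] at h3
  exact h3.congr hvv (hvv t ht)

end Pool.Agent.RF.H53
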