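import Pool.Agent.Helper36_RF.Lip

/-!
# Module NEM (helper53): Nemytskii operators on `LipSp`
-/

noncomputable section

open scoped ContDiff Topology
set_option maxSynthPendingDepth 3
set_option linter.unusedSectionVars false
set_option autoImplicit false
open Set Metric

namespace Pool.Agent.RF.H53

open Pool.Agent.RF Pool.Agent.RF.LipSp

variable {K I : Type} [TopologicalSpace K] [CompactSpace K] {P : PairSys K I}
variable {Y₁ Y₂ : Type} [NormedAddCommGroup Y₁] [NormedSpace ℝ Y₁] [FiniteDimensional ℝ Y₁]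
  [NormedAddCommGroup Y₂] [NormedSpace ℝ Y₂]

theorem exists_lip {F : Y₁ → Y₂} (hF : ContDiff ℝ ∞ F) (R : ℝ) :
    ∃ L : ℝ, 0 ≤ L ∧ ∀ y ∈ closedBall (0 : Y₁) R, ∀ y' ∈ closedBall (0 : Y₁) R,
      ‖F y - F y'‖ ≤ L * ‖y - y'‖ := by
  have hc : ContinuousOn (fderiv ℝ F) (closedBall 0 R) :=
    (hF.continuous_fderiv (by simp)).continuousOn
  obtain ⟨L, hL⟩ := (isCompact_closedBall (0 : Y₁) R).exists_bound_of_continuousOn hc
  refine ⟨max L 0, le_max_right _ _, fun y hy y' hy' => ?_⟩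
  exact (convex_closedBall (0 : Y₁) R).norm_image_sub_le_of_norm_fderiv_le
    (fun x _ => (hF.differentiable (by simp)) x)
    (fun x hx => (hL x hx).trans (le_max_left _ _)) hy' hy

theorem exists_bd {F : Y₁ → Y₂} (hF : ContDiff ℝ ∞ F) (R : ℝ) :
    ∃ L : ℝ, 0 ≤ L ∧ ∀ y ∈ closedBall (0 : Y₁) R, ‖F y‖ ≤ L := by
  obtain ⟨L, hL⟩ := (isCompact_closedBall (0 : Y₁) R).exists_bound_of_continuousOn
    hF.continuous.continuousOn
  exact ⟨max L 0, le_max_right _ _, fun y hy => (hL y hy).trans (le_max_left _ _)⟩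

theorem mem_ball (p : LipSp P Y₁) {M : ℝ} (hM : ‖p‖ ≤ M) (x : K) :
    p x ∈ closedBall (0 : Y₁) M := by
  rw [mem_closedBall, dist_zero_right]
  exact (p.norm_apply_le x).trans hM

/-- The Nemytskii operator. -/
def nem (F : Y₁ → Y₂) (hF : ContDiff ℝ ∞ F) (p : LipSp P Y₁) : LipSp P Y₂ :=
  mk' ⟨fun x => F (p x), hF.continuous.comp p.continuous⟩
    ((exists_lip hF ‖p‖).choose * ‖p‖) (by
      intro i
      obtain ⟨h0, h1⟩ := (exists_lip hF ‖p‖).choose_spec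
      refine (h1 _ (mem_ball p le_rfl _) _ (mem_ball p le_rfl _)).trans ?_
      rw [mul_assoc]
      exact mul_le_mul_of_nonneg_left (p.norm_diff_le i) h0)

theorem nem_apply (F : Y₁ → Y₂) (hF : ContDiff ℝ ∞ F) (p : LipSp P Y₁) (x : K) :
    nem F hF p x = F (p x) := rfl

/-- The Nemytskii operator is bounded on bounded sets. -/
theorem nem_bounded (F : Y₁ → Y₂) (hF : ContDiff ℝ ∞ F) (M : ℝ) :
    ∃ C : ℝ, ∀ p : LipSp P Y₁, ‖p‖ ≤ M → ‖nem F hF p‖ ≤ C := by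
  obtain ⟨L, hL0, hL⟩ := exists_lip hF M
  obtain ⟨B, hB0, hB⟩ := exists_bd hF M
  refine ⟨B + L * |M|, fun p hp => ?_⟩
  have hnn : 0 ≤ L * |M| := mul_nonneg hL0 (abs_nonneg M)
  refine norm_le (by linarith) (fun x => ?_) (fun i => ?_)
  · exact (hB _ (mem_ball p hp x)).trans (by linarith)
  · refine (hL _ (mem_ball p hp _) _ (mem_ball p hp _)).trans ?_
    have h1 := p.norm_diff_le i
    have hw := P.w_pos i
    calc L * ‖p (P.k i) - p (P.k' i)‖ ≤ L * (‖p‖ * P.w i) := mul_le_mul_of_nonneg_left h1 hL0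
      _ ≤ L * (|M| * P.w i) := by
          refine mul_le_mul_of_nonneg_left ?_ hL0
          exact mul_le_mul_of_nonneg_right (hp.trans (le_abs_self M)) hw.le
      _ = (L * |M|) * P.w i := by ring
      _ ≤ (B + L * |M|) * P.w i := mul_le_mul_of_nonneg_right (by linarith) hw.le

/-- Second order differences. -/
theorem second_diff {F : Y₁ → Y₂} (hF : ContDiff ℝ ∞ F) (r : ℝ) :
    ∃ L : ℝ, 0 ≤ L ∧ ∀ x ∈ closedBall (0 : Y₁) r, ∀ x' ∈ closedBall (0 : Y₁) r, ∀ u : Y₁,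
      ‖u‖ ≤ 1 → ‖(F (x + u) - F (x' + u)) - (F x - F x') - (fderiv ℝ F x - fderiv ℝ F x') u‖ ≤
        L * ‖u‖ ^ 2 * ‖x - x'‖ := by
  have hF1 : ContDiff ℝ ∞ (fderiv ℝ F) := hF.fderiv_right (by simp)
  have hF2 : ContDiff ℝ ∞ (fderiv ℝ (fderiv ℝ F)) := hF1.fderiv_right (by simp)
  obtain ⟨L, hL0, hL⟩ := exists_lip hF2 (r + 1)
  refine ⟨L, hL0, fun x hx x' hx' u hu => ?_⟩
  have hd : Differentiable ℝ F := hF.differentiable (by simp)
  have hd1 : Differentiable ℝ (fderiv ℝ F) := hF1.differentiable (by simp)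
  -- step A
  have hA : ∀ v : Y₁, ‖v‖ ≤ 1 → ‖(fderiv ℝ F (x + v) - fderiv ℝ F x) -
      (fderiv ℝ F (x' + v) - fderiv ℝ F x')‖ ≤ L * ‖v‖ * ‖x - x'‖ := by
    intro v hv
    have hder : ∀ z, HasFDerivAt (fun z => fderiv ℝ F (z + v) - fderiv ℝ F z)
        (fderiv ℝ (fderiv ℝ F) (z + v) - fderiv ℝ (fderiv ℝ F) z) z := by
      intro z
      exact ((hasFDerivAt_comp_add_right v).2 (hd1 (z + v)).hasFDerivAt).sub (hd1 z).hasFDerivAt
    refine (convex_closedBall (0 : Y₁) r).norm_image_sub_le_of_norm_hasFDerivWithin_le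
      (fun z _ => (hder z).hasFDerivWithinAt) (fun z hz => ?_) hx' hx
    have hz' : ‖z‖ ≤ r := mem_closedBall_zero_iff.1 hz
    have := hL (z + v) (mem_closedBall_zero_iff.2 ((norm_add_le _ _).trans (by linarith))) z
      (mem_closedBall_zero_iff.2 (by linarith))
    rwa [add_sub_cancel_left] at this
  -- step B
  have hder : ∀ z, HasFDerivAt (fun z => F (x + z) - F (x' + z))
      (fderiv ℝ F (x + z) - fderiv ℝ F (x' + z)) z := by
    intro z
    exact ((hasFDerivAt_comp_add_left x).2 (hd (x + z)).hasFDerivAt).sub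
      ((hasFDerivAt_comp_add_left x').2 (hd (x' + z)).hasFDerivAt)
  have hB := (convex_closedBall (0 : Y₁) ‖u‖).norm_image_sub_le_of_norm_hasFDerivWithin_le'
      (f := fun z => F (x + z) - F (x' + z)) (φ := fderiv ℝ F x - fderiv ℝ F x')
      (C := L * ‖u‖ * ‖x - x'‖)
      (fun z _ => (hder z).hasFDerivWithinAt) (fun z hz => ?_)
      (mem_closedBall_self (norm_nonneg u)) (y := u) (by
        rw [mem_closedBall, dist_zero_right])
  · simp only [add_zero, sub_zero] at hB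
    calc _ ≤ _ := hB
      _ = _ := by ring
  · have hz' : ‖z‖ ≤ ‖u‖ := mem_closedBall_zero_iff.1 hz
    have := hA z (hz'.trans hu)
    have e : fderiv ℝ F (x + z) - fderiv ℝ F (x' + z) - (fderiv ℝ F x - fderiv ℝ F x') =
      (fderiv ℝ F (x + z) - fderiv ℝ F x) - (fderiv ℝ F (x' + z) - fderiv ℝ F x') := by abel
    rw [e]
    refine this.trans (mul_le_mul_of_nonneg_right ?_ (norm_nonneg _))
    exact mul_le_mul_of_nonneg_left hz' hL0

/-- First order differences. -/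
theorem first_diff {F : Y₁ → Y₂} (hF : ContDiff ℝ ∞ F) (r : ℝ) :
    ∃ L : ℝ, 0 ≤ L ∧ ∀ x ∈ closedBall (0 : Y₁) r, ∀ u u' : Y₁, ∀ δ ≤ 1, ‖u‖ ≤ δ → ‖u'‖ ≤ δ →
      ‖F (x + u) - F (x + u') - fderiv ℝ F x (u - u')‖ ≤ L * δ * ‖u - u'‖ := by
  have hF1 : ContDiff ℝ ∞ (fderiv ℝ F) := hF.fderiv_right (by simp)
  obtain ⟨L, hL0, hL⟩ := exists_lip hF1 (r + 1)
  refine ⟨L, hL0, fun x hx u u' δ hδ hu hu' => ?_⟩
  have hd : Differentiable ℝ F := hF.differentiable (by simp)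
  have hx' : ‖x‖ ≤ r := mem_closedBall_zero_iff.1 hx
  have := (convex_closedBall x δ).norm_image_sub_le_of_norm_fderiv_le' (f := F)
    (φ := fderiv ℝ F x) (C := L * δ) (fun z _ => hd z) (fun z hz => ?_)
    (x := x + u') (y := x + u) (by rw [mem_closedBall, dist_eq_norm, add_sub_cancel_left]; exact hu')
    (by rw [mem_closedBall, dist_eq_norm, add_sub_cancel_left]; exact hu)
  · rwa [add_sub_add_left_eq_sub] at this
  · rw [mem_closedBall, dist_eq_norm] at hz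
    have hz2 : ‖z‖ ≤ r + 1 := by
      calc ‖z‖ = ‖(z - x) + x‖ := by rw [sub_add_cancel]
        _ ≤ ‖z - x‖ + ‖x‖ := norm_add_le _ _
        _ ≤ _ := by linarith
    have := hL z (mem_closedBall_zero_iff.2 hz2) x (mem_closedBall_zero_iff.2 (by linarith))
    exact this.trans (mul_le_mul_of_nonneg_left hz hL0)

variable (P) in
/-- the evaluation bilinear map -/
def evB (Y₁ Y₂ : Type) [NormedAddCommGroup Y₁] [NormedSpace ℝ Y₁] [NormedAddCommGroup Y₂]
    [NormedSpace ℝ Y₂] : LipSp P (Y₁ →L[ℝ] Y₂) →L[ℝ] LipSp P Y₁ →L[ℝ] LipSp P Y₂ :=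
  bilL (ContinuousLinearMap.id ℝ (Y₁ →L[ℝ] Y₂))

/-- The derivative of the Nemytskii operator. -/
theorem hasFDerivAt_nem (F : Y₁ → Y₂) (hF : ContDiff ℝ ∞ F) (p : LipSp P Y₁) :
    HasFDerivAt (nem F hF : LipSp P Y₁ → LipSp P Y₂)
      (evB P Y₁ Y₂ (nem (fderiv ℝ F) (hF.fderiv_right (by simp)) p)) p := by
  obtain ⟨L₁, hL₁0, hL₁⟩ := first_diff hF ‖p‖
  obtain ⟨L₂, hL₂0, hL₂⟩ := second_diff hF ‖p‖
  have hp := norm_nonneg p
  have key : ∀ h : LipSp P Y₁, ‖h‖ ≤ 1 →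
      ‖nem F hF (p + h) - nem F hF p -
        evB P Y₁ Y₂ (nem (fderiv ℝ F) (hF.fderiv_right (by simp)) p) h‖ ≤
        (L₁ + L₂ * ‖p‖) * ‖h‖ ^ 2 := by
    intro h hh
    have hval : ∀ x, (nem F hF (p + h) - nem F hF p -
        evB P Y₁ Y₂ (nem (fderiv ℝ F) (hF.fderiv_right (by simp)) p) h) x =
        F (p x + h x) - F (p x) - fderiv ℝ F (p x) (h x) := fun x => rfl
    have hnn : 0 ≤ L₂ * ‖p‖ := by positivity
    refine norm_le (by positivity) (fun x => ?_) (fun i => ?_)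
    · rw [hval]
      have := hL₁ (p x) (mem_ball p le_rfl x) (h x) 0 ‖h‖ hh (h.norm_apply_le x)
        (by rw [norm_zero]; exact norm_nonneg h)
      rw [add_zero, sub_zero] at this
      refine this.trans ?_
      calc L₁ * ‖h‖ * ‖h x‖ ≤ L₁ * ‖h‖ * ‖h‖ := by
            refine mul_le_mul_of_nonneg_left (h.norm_apply_le x) (by positivity)
        _ = L₁ * ‖h‖ ^ 2 := by ring
        _ ≤ (L₁ + L₂ * ‖p‖) * ‖h‖ ^ 2 :=
            mul_le_mul_of_nonneg_right (by linarith) (by positivity)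
    · rw [hval, hval]
      have hw := P.w_pos i
      obtain ⟨a, ha⟩ : ∃ a, a = p (P.k i) := ⟨_, rfl⟩
      obtain ⟨a', ha'⟩ : ∃ a', a' = p (P.k' i) := ⟨_, rfl⟩
      obtain ⟨u, hu⟩ : ∃ u, u = h (P.k i) := ⟨_, rfl⟩
      obtain ⟨u', hu'⟩ : ∃ u', u' = h (P.k' i) := ⟨_, rfl⟩
      have h1 := hL₁ a (ha ▸ mem_ball p le_rfl _) u u' ‖h‖ hh (hu ▸ h.norm_apply_le _)
        (hu' ▸ h.norm_apply_le _)
      have h2 := hL₂ a (ha ▸ mem_ball p le_rfl _) a' (ha' ▸ mem_ball p le_rfl _) u'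
        (hu' ▸ (h.norm_apply_le _).trans hh)
      have d1 : ‖u - u'‖ ≤ ‖h‖ * P.w i := by rw [hu, hu']; exact h.norm_diff_le i
      have d2 : ‖a - a'‖ ≤ ‖p‖ * P.w i := by rw [ha, ha']; exact p.norm_diff_le i
      have d3 : ‖u'‖ ≤ ‖h‖ := hu' ▸ h.norm_apply_le _
      rw [← ha, ← ha', ← hu, ← hu']
      have e : (F (a + u) - F a - fderiv ℝ F a u) - (F (a' + u') - F a' - fderiv ℝ F a' u') =
          (F (a + u) - F (a + u') - fderiv ℝ F a (u - u')) +
          ((F (a + u') - F (a' + u')) - (F a - F a') - (fderiv ℝ F a - fderiv ℝ F a') u') := by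
        rw [map_sub, _root_.sub_apply]; abel
      rw [e]
      refine (norm_add_le _ _).trans ?_
      have g1 : L₁ * ‖h‖ * ‖u - u'‖ ≤ L₁ * ‖h‖ * (‖h‖ * P.w i) :=
        mul_le_mul_of_nonneg_left d1 (by positivity)
      have g2 : L₂ * ‖u'‖ ^ 2 * ‖a - a'‖ ≤ L₂ * ‖h‖ ^ 2 * (‖p‖ * P.w i) := by
        refine mul_le_mul ?_ d2 (norm_nonneg _) (by positivity)
        exact mul_le_mul_of_nonneg_left (pow_le_pow_left₀ (norm_nonneg _) d3 2) hL₂0
      calc _ ≤ L₁ * ‖h‖ * (‖h‖ * P.w i) + L₂ * ‖h‖ ^ 2 * (‖p‖ * P.w i) :=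
            add_le_add (h1.trans g1) (h2.trans g2)
        _ = (L₁ + L₂ * ‖p‖) * ‖h‖ ^ 2 * P.w i := by ring
  rw [hasFDerivAt_iff_isLittleO_nhds_zero]
  have hbig : (fun h : LipSp P Y₁ => nem F hF (p + h) - nem F hF p -
        evB P Y₁ Y₂ (nem (fderiv ℝ F) (hF.fderiv_right (by simp)) p) h) =O[𝓝 0]
        fun h => ‖h‖ ^ 2 := by
    refine Asymptotics.IsBigO.of_bound (L₁ + L₂ * ‖p‖) ?_
    filter_upwards [closedBall_mem_nhds (0 : LipSp P Y₁) one_pos] with h hh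
    have := key h (mem_closedBall_zero_iff.1 hh)
    rwa [norm_pow, norm_norm]
  exact hbig.trans_isLittleO (Asymptotics.isLittleO_norm_pow_id one_lt_two)

theorem contDiff_nem (n : ℕ) : ∀ (Y₂ : Type) [NormedAddCommGroup Y₂] [NormedSpace ℝ Y₂]
    (F : Y₁ → Y₂) (hF : ContDiff ℝ ∞ F),
    ContDiff ℝ n (nem F hF : LipSp P Y₁ → LipSp P Y₂) := by
  induction n with
  | zero =>
    intro Y₂ _ _ F hF
    rw [Nat.cast_zero, contDiff_zero, continuous_iff_continuousAt]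
    exact fun p => (hasFDerivAt_nem F hF p).continuousAt
  | succ n ih =>
    intro Y₂ _ _ F hF
    rw [Nat.cast_succ, contDiff_succ_iff_hasFDerivAt]
    refine ⟨_, ?_, fun p => hasFDerivAt_nem F hF p⟩
    exact (evB P Y₁ Y₂).contDiff.comp (ih (Y₁ →L[ℝ] Y₂) (fderiv ℝ F) (hF.fderiv_right (by simp)))

/-- Module NEM. -/
theorem nemStatement : NemStatement := by
  intro K I _ _ P Y₁ Y₂ _ _ _ _ _ F hF
  refine ⟨nem F hF, fun p x => rfl, ?_, fun M => ?_⟩
  · rw [contDiff_infty]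
    exact fun n => contDiff_nem n Y₂ F hF
  · obtain ⟨C, hC⟩ := nem_bounded (P := P) (fderiv ℝ F) (hF.fderiv_right (by simp)) M
    refine ⟨‖evB P Y₁ Y₂‖ * C, fun p q hp hq => ?_⟩
    refine (convex_closedBall (0 : LipSp P Y₁) M).norm_image_sub_le_of_norm_hasFDerivWithin_le
      (fun z _ => (hasFDerivAt_nem F hF z).hasFDerivWithinAt) (fun z hz => ?_)
      (mem_closedBall_zero_iff.2 hq) (mem_closedBall_zero_iff.2 hp)
    refine ((evB P Y₁ Y₂).le_opNorm _).trans ?_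
    exact mul_le_mul_of_nonneg_left (hC z (mem_closedBall_zero_iff.1 hz)) (norm_nonneg _)

end Pool.Agent.RF.H53
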