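import Pool.Agent.Helper36_RF.ExistMod
import Pool.Agent.Helper36_RF.GeoSt

/-!
# RESC: joint smoothness and rescaling of time (squad MP_a23110_gt, helper53)
-/

noncomputable section

open scoped ContDiff Topology RealInnerProductSpace
set_option maxSynthPendingDepth 3
set_option linter.unusedSectionVars false
open Set Metric

namespace Pool.Agent.RF.H53

open Pool.Agent.RF

variable {ι : Type} [Fintype ι] [DecidableEq ι]

/-- elementary bilinear form -/
def eij (i j : ι) : Bil (E ι) :=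
  (EuclideanSpace.proj (𝕜 := ℝ) i : E ι →L[ℝ] ℝ).smulRight (EuclideanSpace.proj (𝕜 := ℝ) j)

theorem eij_apply (i j : ι) (v w : E ι) : eij i j v w = v i * w j := by
  simp [eij]

theorem vec_eq (v : E ι) : v = ∑ i, v i • eb i := by
  ext j
  simp [eb, Pi.single_apply]

theorem bil_eq (g : Bil (E ι)) : g = ∑ i, ∑ j, g (eb i) (eb j) • eij i j := by
  ext v w
  conv_lhs => rw [vec_eq v, vec_eq w]
  simp only [map_sum, map_smul, sum_apply, smul_apply, smul_eq_mul, eij_apply, Finset.mul_sum]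
  refine Eq.trans Finset.sum_comm ?_
  refine Finset.sum_congr rfl fun i _ => ?_
  refine Finset.sum_congr rfl fun j _ => ?_
  ring

/-- a curve of bilinear forms is differentiable if its entries are -/
theorem hasDeriv_bil {f : ℝ → Bil (E ι)} {f' : Bil (E ι)} {s : Set ℝ} {t : ℝ}
    (h : ∀ v w, HasDerivWithinAt (fun r => f r v w) (f' v w) s t) :
    HasDerivWithinAt f f' s t := by
  have h1 : HasDerivWithinAt (fun r => ∑ i, ∑ j, f r (eb i) (eb j) • eij i j)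
      (∑ i, ∑ j, f' (eb i) (eb j) • eij (ι := ι) i j) s t := by
    refine HasDerivWithinAt.fun_sum fun i _ => HasDerivWithinAt.fun_sum fun j _ => ?_
    exact (h (eb i) (eb j)).smul_const _
  have h2 : (fun r => ∑ i, ∑ j, f r (eb i) (eb j) • eij i j) = f := by
    funext r
    exact (bil_eq (f r)).symm
  rwa [h2, ← bil_eq f'] at h1

theorem ginv_smooth {Q : Type*} [NormedAddCommGroup Q] [NormedSpace ℝ Q] {q₀ : Q}
    {g : Q → Bil (E ι)} (hg : ContDiffAt ℝ ∞ g q₀) (hI : (g q₀).IsInvertible) (k l : ι) :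
    ContDiffAt ℝ ∞ (fun q => ginv (g q) k l) q₀ := by
  unfold ginv
  have h2 : ContDiffAt ℝ ∞ (fun q => (g q).inverse) q₀ :=
    ContDiffAt.comp q₀ (hI.contDiffAt_map_inverse) hg
  have h3 : ContDiffAt ℝ ∞ (fun q => (g q).inverse (EuclideanSpace.proj k)) q₀ :=
    h2.clm_apply contDiffAt_const
  exact ((EuclideanSpace.proj (𝕜 := ℝ) l).contDiff.contDiffAt).comp q₀ h3

/-- RESC. -/
theorem resc (hJ : JointSmoothStatement) (hR : RdtStructureStatement) (hC : ChrStatement) :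
    RescStatement := by
  intro ι _ _ T w hT hcyl hcont hder
  obtain ⟨Φ0, hΦ0, hΦ1⟩ := hR ι
  have hmem : ∀ t ∈ Icc (0:ℝ) T, t / T ∈ Icc (0:ℝ) 1 := by
    rintro t ⟨h0, h1⟩
    exact ⟨div_nonneg h0 hT.le, (div_le_one hT).2 h1⟩
  have hopen : IsOpen (Om ι) := isOpen_ne
  have hflow : ∀ t ∈ Icc 0 T, ∀ x ∈ Om ι, ∀ v v',
      HasDerivWithinAt (fun s => w (s / T) x v v') (rdt (w (t / T)) x v v') (Icc 0 T) t := by
    intro t ht x hx v v'
    have h1 := hder (t / T) (hmem t ht) x hx v v'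
    have h2 : HasDerivWithinAt (fun s : ℝ => s / T) (1 / T) (Icc 0 T) t :=
      (hasDerivWithinAt_id t _).div_const T
    have h3 := HasDerivWithinAt.scomp t h1 h2 (fun s hs => hmem s hs)
    have h4 : (1 / T) • (T * rdt (w (t / T)) x v v') = rdt (w (t / T)) x v v' := by
      rw [smul_eq_mul]
      field_simp
    rw [h4] at h3
    exact h3
  refine ⟨fun t ht => hcyl _ (hmem t ht), ?_, hflow⟩
  set O : Set (E ι × Bil (E ι) × (E ι →L[ℝ] Bil (E ι)) × (E ι →L[ℝ] E ι →L[ℝ] Bil (E ι))) :=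
    {q | q.1 ≠ 0 ∧ q.2.1.IsInvertible} with hO
  set Φ : ℝ × E ι × Bil (E ι) × (E ι →L[ℝ] Bil (E ι)) × (E ι →L[ℝ] E ι →L[ℝ] Bil (E ι)) →
      Bil (E ι) := fun q =>
    (∑ k, ∑ l, ginv q.2.2.1 k l • q.2.2.2.2 (eb k) (eb l)) + Φ0 (q.2.1, q.2.2.1, q.2.2.2.1)
    with hΦ
  have hinv_open : IsOpen {g : Bil (E ι) | g.IsInvertible} := by
    have h := ContinuousLinearEquiv.isOpen (𝕜 := ℝ) (E := E ι) (F := E ι →L[ℝ] ℝ)
    have h' : {g : Bil (E ι) | g.IsInvertible} =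
        range ((↑) : (E ι ≃L[ℝ] (E ι →L[ℝ] ℝ)) → Bil (E ι)) := by
      ext g
      rfl
    rw [h']
    exact h
  have hOopen : IsOpen O := by
    have h1 : IsOpen {q : E ι × Bil (E ι) × (E ι →L[ℝ] Bil (E ι)) ×
        (E ι →L[ℝ] E ι →L[ℝ] Bil (E ι)) | q.1 ∈ Om ι} := hopen.preimage continuous_fst
    have h2 : IsOpen {q : E ι × Bil (E ι) × (E ι →L[ℝ] Bil (E ι)) ×
        (E ι →L[ℝ] E ι →L[ℝ] Bil (E ι)) | q.2.1 ∈ {g : Bil (E ι) | g.IsInvertible}} :=
      hinv_open.preimage continuous_snd.fst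
    exact h1.inter h2
  have hO0 : IsOpen {q : E ι × Bil (E ι) × (E ι →L[ℝ] Bil (E ι)) |
      q.1 ≠ 0 ∧ q.2.1.IsInvertible} := by
    have h1 : IsOpen {q : E ι × Bil (E ι) × (E ι →L[ℝ] Bil (E ι)) | q.1 ∈ Om ι} :=
      hopen.preimage continuous_fst
    have h2 : IsOpen {q : E ι × Bil (E ι) × (E ι →L[ℝ] Bil (E ι)) |
        q.2.1 ∈ {g : Bil (E ι) | g.IsInvertible}} := hinv_open.preimage continuous_snd.fst
    exact h1.inter h2
  have hΦs : ContDiffOn ℝ ∞ Φ (Icc 0 T ×ˢ O) := by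
    rintro ⟨t, x, g, D1, D2⟩ ⟨-, hx, hg⟩
    apply ContDiffAt.contDiffWithinAt
    refine ContDiffAt.add ?_ ?_
    · refine ContDiffAt.sum fun k _ => ContDiffAt.sum fun l _ => ?_
      refine ContDiffAt.smul (ginv_smooth contDiffAt_snd.snd.fst hg k l) ?_
      exact (contDiffAt_snd.snd.snd.snd.clm_apply contDiffAt_const).clm_apply contDiffAt_const
    · have h1 : ContDiffAt ℝ ∞ Φ0 (x, g, D1) :=
        (hΦ0 (x, g, D1) ⟨hx, hg⟩).contDiffAt (hO0.mem_nhds ⟨hx, hg⟩)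
      have h2 : ContDiffAt ℝ ∞ (fun q : ℝ × E ι × Bil (E ι) × (E ι →L[ℝ] Bil (E ι)) ×
          (E ι →L[ℝ] E ι →L[ℝ] Bil (E ι)) => (q.2.1, q.2.2.1, q.2.2.2.1)) (t, x, g, D1, D2) :=
        contDiffAt_snd.fst.prodMk (contDiffAt_snd.snd.fst.prodMk contDiffAt_snd.snd.snd.fst)
      exact ContDiffAt.comp (t, x, g, D1, D2) h1 h2
  refine hJ (E ι) (Bil (E ι)) T (Om ι) (fun t => w (t / T)) O Φ hT hopen hOopen hΦs
    (fun t ht => (hcyl _ (hmem t ht)).metric.smooth) ?_ ?_ ?_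
  · intro k
    have h1 : ContinuousOn (fun q : ℝ × E ι => (q.1 / T, q.2)) (Icc 0 T ×ˢ Om ι) :=
      ((continuous_fst.div_const T).prodMk continuous_snd).continuousOn
    exact (hcont k).comp h1 fun q hq => ⟨hmem _ hq.1, hq.2⟩
  · intro t ht x hx
    exact ⟨hx, (hC ι _ _ (hcyl _ (hmem t ht)).metric x hx).1⟩
  · intro t ht x hx
    apply hasDeriv_bil
    intro v v'
    have h1 := hflow t ht x hx v v'
    rw [hΦ1 _ _ (hcyl _ (hmem t ht)).metric subset_rfl x hx] at h1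
    have h2 : Φ (t, x, w (t / T) x, fderiv ℝ (w (t / T)) x,
        fderiv ℝ (fderiv ℝ (w (t / T))) x) v v' =
        ∑ k, ∑ l, ginv (w (t / T) x) k l *
          (fderiv ℝ (fderiv ℝ (w (t / T))) x (eb k) (eb l) v v')
            + Φ0 (x, w (t / T) x, fderiv ℝ (w (t / T)) x) v v' := by
      simp only [hΦ, add_apply, sum_apply, smul_apply, smul_eq_mul]
    rw [h2]
    exact h1

end Pool.Agent.RF.H53
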