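import Pool.Agent.Helper36_RF.Abs

/-!
# Module MR (helper53), part 1: generators, Hille's lemma, the basic smoothing estimate
-/

noncomputable section

open scoped ContDiff Topology
set_option maxSynthPendingDepth 3
set_option linter.unusedSectionVars false
set_option autoImplicit false
open Set Metric MeasureTheory Filter

namespace Pool.Agent.RF.H53

open Pool.Agent.RF

variable {𝓔 : Type} [NormedAddCommGroup 𝓔] [NormedSpace ℝ 𝓔] {Γ A : Type} [Fintype A]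
variable (R : RotSys 𝓔 Γ A)

theorem hasDerivAt_T {g : Γ} {x x' : 𝓔} (h : R.HasGen g x x') (s : ℝ) :
    HasDerivAt (fun s => R.T g s x) (R.T g s x') s := by
  have h1 : HasDerivAt (fun u => R.T g s (R.T g u x)) (R.T g s x') 0 :=
    (R.T g s).hasFDerivAt.comp_hasDerivAt 0 h
  have h2 : HasDerivAt (fun u => R.T g s (R.T g (u - s) x)) (R.T g s x') s := by
    apply HasDerivAt.comp_sub_const (f := fun u => R.T g s (R.T g u x)) s s
    rw [sub_self]
    exact h1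
  have e : (fun u => R.T g s (R.T g (u - s) x)) = fun u => R.T g u x := by
    funext u
    rw [← R.T_add, add_sub_cancel]
  rwa [e] at h2

theorem lip_gen {g : Γ} {x x' : 𝓔} (h : R.HasGen g x x') (s s' : ℝ) :
    ‖R.T g s x - R.T g s' x‖ ≤ ‖x'‖ * |s - s'| := by
  have := convex_univ.norm_image_sub_le_of_norm_hasDerivWithin_le (f := fun s => R.T g s x)
    (f' := fun s => R.T g s x') (C := ‖x'‖)
    (fun s _ => (hasDerivAt_T R h s).hasDerivWithinAt) (fun s _ => by rw [R.norm_T])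
    (mem_univ s') (mem_univ s)
  rwa [Real.norm_eq_abs] at this

theorem gen_add {g : Γ} {x x' y y' : 𝓔} (h : R.HasGen g x x') (h' : R.HasGen g y y') :
    R.HasGen g (x + y) (x' + y') := by
  have := HasDerivAt.add h h'
  refine this.congr_of_eventuallyEq (Eventually.of_forall fun s => ?_)
  exact map_add _ _ _

/-- Hille's lemma. -/
theorem hille [CompleteSpace 𝓔] {α : Type*} [MeasurableSpace α] {μ : Measure α} (g : Γ)
    {φ φ' : α → 𝓔} (hφ : Integrable φ μ) (hφ' : Integrable φ' μ)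
    (h : ∀ᵐ r ∂μ, R.HasGen g (φ r) (φ' r)) : R.HasGen g (∫ r, φ r ∂μ) (∫ r, φ' r ∂μ) := by
  have key := hasDerivAt_integral_of_dominated_loc_of_lip (F := fun (s : ℝ) r => R.T g s (φ r))
    (F' := φ') (x₀ := (0 : ℝ)) (s := univ) (bound := fun r => ‖φ' r‖) (μ := μ)
    Filter.univ_mem
    (Eventually.of_forall fun s => (R.T g s).continuous.comp_aestronglyMeasurable hφ.1)
    ((R.T g 0).integrable_comp hφ) hφ'.1 ?_ hφ'.norm h
  · refine key.2.congr_of_eventuallyEq (Eventually.of_forall fun s => ?_)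
    exact ((R.T g s).integral_comp_comm hφ).symm
  · filter_upwards [h] with r hr
    refine LipschitzOnWith.of_dist_le_mul fun s _ s' _ => ?_
    rw [dist_eq_norm, Real.dist_eq, Real.coe_nnabs, abs_of_nonneg (norm_nonneg _)]
    exact lip_gen R hr s s'

/-- the class of Hölder vectors -/
def Hol (M : ℝ) (x : 𝓔) : Prop :=
  ‖x‖ ≤ M ∧ ∀ g, ∀ s ∈ Icc (0 : ℝ) 1, ‖R.T g s x - x‖ ≤ M * √s

/-- The average of the orbit. -/
theorem avg_gen [CompleteSpace 𝓔] (g : Γ) (x : 𝓔) {ρ : ℝ} (hρ : 0 < ρ) :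
    R.HasGen g (ρ⁻¹ • ∫ r in (0 : ℝ)..ρ, R.T g r x) (ρ⁻¹ • (R.T g ρ x - x)) := by
  have hc := R.cont_T g x
  have hG : ∀ u, HasDerivAt (fun u => ∫ r in (0 : ℝ)..u, R.T g r x) (R.T g u x) u := fun u =>
    intervalIntegral.integral_hasDerivAt_right (hc.intervalIntegrable _ _)
      hc.stronglyMeasurable.stronglyMeasurableAtFilter hc.continuousAt
  have h1 : HasDerivAt (fun s => ρ⁻¹ • ((∫ r in (0 : ℝ)..(s + ρ), R.T g r x) -
      ∫ r in (0 : ℝ)..s, R.T g r x)) (ρ⁻¹ • (R.T g ρ x - x)) 0 := by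
    refine HasDerivAt.const_smul _ (HasDerivAt.sub ?_ ?_)
    · apply HasDerivAt.comp_add_const (f := fun u => ∫ r in (0 : ℝ)..u, R.T g r x)
      rw [zero_add]
      exact hG ρ
    · have := hG 0
      rwa [R.T_zero] at this
  refine h1.congr_of_eventuallyEq (Eventually.of_forall fun s => ?_)
  change R.T g s (ρ⁻¹ • ∫ r in (0 : ℝ)..ρ, R.T g r x) = _
  rw [map_smul]
  congr 1
  rw [← (R.T g s).intervalIntegral_comp_comm (hc.intervalIntegrable _ _),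
    intervalIntegral.integral_interval_sub_left (hc.intervalIntegrable _ _)
      (hc.intervalIntegrable _ _)]
  have : ∀ r, R.T g s (R.T g r x) = R.T g (r + s) x := by
    intro r; rw [add_comm, R.T_add]
  simp only [this]
  rw [intervalIntegral.integral_comp_add_right (fun r => R.T g r x), zero_add, add_comm ρ s]

theorem avg_near [CompleteSpace 𝓔] (g : Γ) {x : 𝓔} {M : ℝ} (hx : Hol R M x) {ρ : ℝ} (hρ : 0 < ρ) (hρ1 : ρ ≤ 1) :
    ‖x - ρ⁻¹ • ∫ r in (0 : ℝ)..ρ, R.T g r x‖ ≤ M * √ρ := by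
  have hM : 0 ≤ M := (norm_nonneg x).trans hx.1
  have hc := R.cont_T g x
  have e : x - ρ⁻¹ • ∫ r in (0 : ℝ)..ρ, R.T g r x = ρ⁻¹ • ∫ r in (0 : ℝ)..ρ, (x - R.T g r x) := by
    rw [intervalIntegral.integral_sub (by simp) (hc.intervalIntegrable _ _),
      intervalIntegral.integral_const, sub_zero, smul_sub, smul_smul, inv_mul_cancel₀ hρ.ne',
      one_smul]
  rw [e, norm_smul, norm_inv, Real.norm_of_nonneg hρ.le]
  have h1 : ‖∫ r in (0 : ℝ)..ρ, (x - R.T g r x)‖ ≤ (M * √ρ) * |ρ - 0| := by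
    refine intervalIntegral.norm_integral_le_of_norm_le_const fun r hr => ?_
    rw [uIoc_of_le hρ.le] at hr
    rw [norm_sub_rev]
    refine (hx.2 g r ⟨hr.1.le, hr.2.trans hρ1⟩).trans ?_
    exact mul_le_mul_of_nonneg_left (Real.sqrt_le_sqrt hr.2) hM
  rw [sub_zero, abs_of_pos hρ] at h1
  calc ρ⁻¹ * ‖∫ r in (0 : ℝ)..ρ, (x - R.T g r x)‖ ≤ ρ⁻¹ * (M * √ρ * ρ) :=
        mul_le_mul_of_nonneg_left h1 (inv_pos.2 hρ).le
    _ = M * √ρ := by field_simp

variable (H : Heat R)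

/-- The smoothing estimate for Hölder vectors. -/
theorem Y_hol [CompleteSpace 𝓔] (a : A) {x : 𝓔} {M : ℝ} (hx : Hol R M x) {t : ℝ} (ht : 0 < t)
    (ht1 : t ≤ 1) : ‖H.Y a t x‖ ≤ 2 * M * t ^ (-(1 / 4) : ℝ) := by
  have hM : 0 ≤ M := (norm_nonneg x).trans hx.1
  have hρ : 0 < √t := Real.sqrt_pos.2 ht
  have hρ1 : √t ≤ 1 := (Real.sqrt_le_sqrt ht1).trans_eq Real.sqrt_one
  obtain ⟨f1, hf1⟩ : ∃ f1, f1 = (√t)⁻¹ • ∫ r in (0 : ℝ)..√t, R.T (R.J a) r x := ⟨_, rfl⟩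
  have h1 := avg_gen R (R.J a) x hρ
  have h2 := avg_near R (R.J a) hx hρ hρ1
  rw [← hf1] at h1 h2
  have e : H.Y a t x = H.Y a t (x - f1) + H.S t ((√t)⁻¹ • (R.T (R.J a) (√t) x - x)) := by
    rw [← H.S_gen a t ht _ _ h1, ← map_add, sub_add_cancel]
  have hp : √(√t) = t ^ (1 / 4 : ℝ) := by
    rw [Real.sqrt_eq_rpow, Real.sqrt_eq_rpow, ← Real.rpow_mul ht.le]; norm_num
  have hs : √t = t ^ (1 / 2 : ℝ) := Real.sqrt_eq_rpow t
  have n1 : ‖H.Y a t (x - f1)‖ ≤ M * t ^ (-(1 / 4) : ℝ) := by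
    refine (H.norm_Y a t ht _).trans ?_
    have h3 : √t ≤ √(2 * t) := Real.sqrt_le_sqrt (by linarith)
    calc ‖x - f1‖ / √(2 * t) ≤ (M * √(√t)) / √t :=
          div_le_div₀ (by positivity) h2 hρ h3
      _ = M * t ^ (-(1 / 4) : ℝ) := by
          rw [hp, hs, mul_div_assoc, ← Real.rpow_sub ht]; norm_num
  have n2 : ‖H.S t ((√t)⁻¹ • (R.T (R.J a) (√t) x - x))‖ ≤ M * t ^ (-(1 / 4) : ℝ) := by
    refine (H.norm_S t ht.le _).trans ?_
    rw [norm_smul, norm_inv, Real.norm_of_nonneg hρ.le]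
    have h3 := hx.2 (R.J a) (√t) ⟨hρ.le, hρ1⟩
    calc (√t)⁻¹ * ‖R.T (R.J a) (√t) x - x‖ ≤ (√t)⁻¹ * (M * √(√t)) :=
          mul_le_mul_of_nonneg_left h3 (inv_pos.2 hρ).le
      _ = M * t ^ (-(1 / 4) : ℝ) := by
          rw [hp, hs, ← Real.rpow_neg ht.le, mul_left_comm, ← Real.rpow_add ht]; norm_num
  rw [e]
  refine (norm_add_le _ _).trans ?_
  linarith

/-- the second order family -/
def ZZ (a b : A) (t : ℝ) : 𝓔 →L[ℝ] 𝓔 := (H.Y a (t / 2)).comp (H.Y b (t / 2))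

theorem ZZ_apply (a b : A) (t : ℝ) (x : 𝓔) : ZZ R H a b t x = H.Y a (t / 2) (H.Y b (t / 2) x) := rfl

theorem ZZ_hol [CompleteSpace 𝓔] (a b : A) {x : 𝓔} {M : ℝ} (hx : Hol R M x) {t : ℝ} (ht : 0 < t)
    (ht1 : t ≤ 1) : ‖ZZ R H a b t x‖ ≤ 4 * M * t ^ (-(3 / 4) : ℝ) := by
  have hM : 0 ≤ M := (norm_nonneg x).trans hx.1
  rw [ZZ_apply]
  have h1 := Y_hol R H b hx (half_pos ht) (by linarith)
  refine (H.norm_Y a (t / 2) (half_pos ht) _).trans ?_
  rw [show 2 * (t / 2) = t by ring, Real.sqrt_eq_rpow, div_eq_mul_inv, ← Real.rpow_neg ht.le]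
  have h2 : (t / 2) ^ (-(1 / 4) : ℝ) ≤ 2 * t ^ (-(1 / 4) : ℝ) := by
    rw [Real.div_rpow ht.le zero_le_two, Real.rpow_neg zero_le_two, div_inv_eq_mul, mul_comm]
    refine mul_le_mul_of_nonneg_right ?_ (Real.rpow_nonneg ht.le _)
    calc (2 : ℝ) ^ (1 / 4 : ℝ) ≤ 2 ^ (1 : ℝ) :=
          Real.rpow_le_rpow_of_exponent_le one_le_two (by norm_num)
      _ = 2 := Real.rpow_one 2
  calc ‖H.Y b (t / 2) x‖ * t ^ (-(1 / 2) : ℝ)
      ≤ (2 * M * (2 * t ^ (-(1 / 4) : ℝ))) * t ^ (-(1 / 2) : ℝ) := by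
        refine mul_le_mul_of_nonneg_right (h1.trans ?_) (Real.rpow_nonneg ht.le _)
        exact mul_le_mul_of_nonneg_left h2 (by positivity)
    _ = 4 * M * (t ^ (-(1 / 4) : ℝ) * t ^ (-(1 / 2) : ℝ)) := by ring
    _ = 4 * M * t ^ (-(3 / 4) : ℝ) := by rw [← Real.rpow_add ht]; norm_num

/-- `X_a Y_b(t) = ZZ a b t`. -/
theorem Y_gen (a b : A) {t : ℝ} (ht : 0 < t) (x : 𝓔) :
    R.HasGen (R.J a) (H.Y b t x) (ZZ R H a b t x) := by
  have h := (H.Y_add b (t / 2) (t / 2) (half_pos ht) (half_pos ht).le x).2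
  rw [add_halves] at h
  rw [h, ZZ_apply]
  exact H.gen_Y a (t / 2) (half_pos ht) _

theorem Y_gen_dir (g : Γ) (b : A) {t : ℝ} (ht : 0 < t) (x : 𝓔) :
    R.HasGen g (H.Y b t x) (∑ a, R.c g a • ZZ R H a b t x) := by
  have h := (H.Y_add b (t / 2) (t / 2) (half_pos ht) (half_pos ht).le x).2
  rw [add_halves] at h
  rw [h]
  exact H.gen_dir g (t / 2) (half_pos ht) _

theorem ZZ_half (a b : A) {t : ℝ} (ht : 0 < t) (x : 𝓔) :
    ZZ R H a b t x = H.S (t / 2) (ZZ R H a b (t / 2) x) := by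
  have h4 : 0 < t / 4 := by linarith
  rw [ZZ_apply, ZZ_apply]
  have e1 := (H.Y_add b (t / 4) (t / 4) h4 h4.le x).2
  rw [show t / 4 + t / 4 = t / 2 by ring] at e1
  rw [e1, show t / 2 / 2 = t / 4 by ring]
  have e2 := H.Y_add a (t / 4) (t / 4) h4 h4.le (H.S (t / 4) (H.Y b (t / 4) x))
  rw [show t / 4 + t / 4 = t / 2 by ring] at e2
  rw [e2.2]
  have e3 := H.Y_add a (t / 4) (t / 4) h4 h4.le (H.Y b (t / 4) x)
  rw [show t / 4 + t / 4 = t / 2 by ring] at e3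
  rw [← e3.1, e3.2, ← H.S_add _ _ h4.le h4.le, show t / 4 + t / 4 = t / 2 by ring]

/-- The Hölder difference of `ZZ`, for large times. -/
theorem ZZ_diff [CompleteSpace 𝓔] (g : Γ) (a b : A) {x : 𝓔} {M : ℝ} (hx : Hol R M x) {t : ℝ}
    (ht : 0 < t) (ht1 : t ≤ 1) {s : ℝ} (hs : 0 ≤ s) :
    ‖R.T g s (ZZ R H a b t x) - ZZ R H a b t x‖ ≤
      8 * Fintype.card A * M * (s * t ^ (-(5 / 4) : ℝ)) := by
  have hM : 0 ≤ M := (norm_nonneg x).trans hx.1
  have hg : R.HasGen g (ZZ R H a b t x) (∑ c, R.c g c • H.Y c (t / 2) (ZZ R H a b (t / 2) x)) := by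
    rw [ZZ_half R H a b ht x]
    exact H.gen_dir g (t / 2) (half_pos ht) _
  have h0 := lip_gen R hg s 0
  rw [R.T_zero, sub_zero, abs_of_nonneg hs] at h0
  have h1 := ZZ_hol R H a b hx (half_pos ht) (by linarith : t / 2 ≤ 1)
  have h2 : (t / 2) ^ (-(3 / 4) : ℝ) ≤ 2 * t ^ (-(3 / 4) : ℝ) := by
    rw [Real.div_rpow ht.le zero_le_two, Real.rpow_neg zero_le_two, div_inv_eq_mul, mul_comm]
    refine mul_le_mul_of_nonneg_right ?_ (Real.rpow_nonneg ht.le _)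
    calc (2 : ℝ) ^ (3 / 4 : ℝ) ≤ 2 ^ (1 : ℝ) :=
          Real.rpow_le_rpow_of_exponent_le one_le_two (by norm_num)
      _ = 2 := Real.rpow_one 2
  have h3 : ‖∑ c, R.c g c • H.Y c (t / 2) (ZZ R H a b (t / 2) x)‖ ≤
      Fintype.card A * (8 * M * t ^ (-(5 / 4) : ℝ)) := by
    refine (norm_sum_le _ _).trans ?_
    calc ∑ c, ‖R.c g c • H.Y c (t / 2) (ZZ R H a b (t / 2) x)‖
        ≤ ∑ _c : A, 8 * M * t ^ (-(5 / 4) : ℝ) := by
          refine Finset.sum_le_sum fun c _ => ?_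
          rw [norm_smul, Real.norm_eq_abs]
          calc |R.c g c| * ‖H.Y c (t / 2) (ZZ R H a b (t / 2) x)‖
              ≤ 1 * ‖H.Y c (t / 2) (ZZ R H a b (t / 2) x)‖ :=
                mul_le_mul_of_nonneg_right (R.c_le g c) (norm_nonneg _)
            _ ≤ ‖ZZ R H a b (t / 2) x‖ / √(2 * (t / 2)) := by
                rw [one_mul]; exact H.norm_Y c (t / 2) (half_pos ht) _
            _ = ‖ZZ R H a b (t / 2) x‖ * t ^ (-(1 / 2) : ℝ) := by
                rw [show 2 * (t / 2) = t by ring, Real.sqrt_eq_rpow, div_eq_mul_inv,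
                  ← Real.rpow_neg ht.le]
            _ ≤ (4 * M * (2 * t ^ (-(3 / 4) : ℝ))) * t ^ (-(1 / 2) : ℝ) := by
                refine mul_le_mul_of_nonneg_right (h1.trans ?_) (Real.rpow_nonneg ht.le _)
                exact mul_le_mul_of_nonneg_left h2 (by positivity)
            _ = 8 * M * (t ^ (-(3 / 4) : ℝ) * t ^ (-(1 / 2) : ℝ)) := by ring
            _ = _ := by rw [← Real.rpow_add ht]; norm_num
      _ = _ := by rw [Finset.sum_const, Finset.card_univ, nsmul_eq_mul]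
  calc _ ≤ _ := h0
    _ ≤ (Fintype.card A * (8 * M * t ^ (-(5 / 4) : ℝ))) * s := mul_le_mul_of_nonneg_right h3 hs
    _ = _ := by ring

end Pool.Agent.RF.H53
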