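import Pool.Agent.Helper53_RF.MR1

/-!
# Module MR (helper53), part 2: Duhamel integrals
-/

noncomputable section

open scoped ContDiff Topology
set_option maxSynthPendingDepth 3
set_option linter.unusedSectionVars false
set_option autoImplicit false
open Set Metric MeasureTheory Filter

namespace Pool.Agent.RF.H53

open Pool.Agent.RF

variable {𝓔 : Type} [NormedAddCommGroup 𝓔] [NormedSpace ℝ 𝓔] {Γ A : Type} [Fintype A]
variable (R : RotSys 𝓔 Γ A) (H : Heat R)

/-- the Duhamel integral -/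
def conv (Z : ℝ → 𝓔 →L[ℝ] 𝓔) (f : ℝ → 𝓔) (t : ℝ) : 𝓔 := ∫ τ in (0 : ℝ)..t, Z τ (f (t - τ))

/-- joint continuity for positive times -/
def JC (Z : ℝ → 𝓔 →L[ℝ] 𝓔) : Prop :=
  ∀ t, 0 < t → ∀ x, ContinuousAt (fun p : ℝ × 𝓔 => Z p.1 p.2) (t, x)

theorem S_jc0 : ContinuousOn (fun p : ℝ × 𝓔 => H.S p.1 p.2) (Ici 0 ×ˢ univ) := by
  rintro ⟨t, x⟩ ⟨ht, -⟩
  have h1 : Tendsto (fun p : ℝ × 𝓔 => H.S p.1 (p.2 - x)) (𝓝[Ici 0 ×ˢ univ] (t, x)) (𝓝 0) := by
    refine squeeze_zero_norm' (a := fun p : ℝ × 𝓔 => ‖p.2 - x‖) ?_ ?_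
    · filter_upwards [self_mem_nhdsWithin] with p hp
      exact H.norm_S p.1 hp.1 _
    · have : Continuous fun p : ℝ × 𝓔 => ‖p.2 - x‖ := by fun_prop
      have h2 := this.tendsto (t, x)
      simp only [sub_self, norm_zero] at h2
      exact h2.mono_left nhdsWithin_le_nhds
  have h2 : Tendsto (fun p : ℝ × 𝓔 => H.S p.1 x) (𝓝[Ici 0 ×ˢ univ] (t, x)) (𝓝 (H.S t x)) := by
    have h3 := H.cont x t ht
    refine Tendsto.comp h3 ?_
    refine tendsto_nhdsWithin_iff.2 ⟨?_, ?_⟩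
    · exact continuous_fst.continuousAt.tendsto.mono_left nhdsWithin_le_nhds
    · filter_upwards [self_mem_nhdsWithin] with p hp using hp.1
  have h3 := h1.add h2
  rw [zero_add] at h3
  refine h3.congr fun p => ?_
  rw [← map_add, sub_add_cancel]

theorem S_jc : JC H.S := fun t ht x =>
  (S_jc0 R H).continuousAt (prod_mem_nhds (Ici_mem_nhds ht) univ_mem)

theorem Y_jc (a : A) : JC (H.Y a) := by
  intro t ht x
  have hδ := half_pos ht
  have h1 : ContinuousAt (fun p : ℝ × 𝓔 => H.Y a (t / 2) (H.S (p.1 - t / 2) p.2)) (t, x) := by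
    refine (H.Y a (t / 2)).continuous.continuousAt.comp ?_
    have h2 := S_jc R H (t - t / 2) (by linarith) x
    refine ContinuousAt.comp (f := fun p : ℝ × 𝓔 => (p.1 - t / 2, p.2))
      (g := fun p : ℝ × 𝓔 => H.S p.1 p.2) h2 (by fun_prop)
  refine h1.congr ?_
  have h2 : ∀ᶠ p : ℝ × 𝓔 in 𝓝 (t, x), t / 2 < p.1 :=
    (isOpen_lt continuous_const continuous_fst).mem_nhds (by change t / 2 < t; linarith)
  filter_upwards [h2] with p hp
  have := (H.Y_add a (t / 2) (p.1 - t / 2) hδ (by linarith) p.2).1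
  rw [add_sub_cancel] at this
  exact this.symm

theorem ZZ_jc (a b : A) : JC (ZZ R H a b) := by
  intro t ht x
  have h1 := Y_jc R H b (t / 2) (half_pos ht) x
  have h2 : ContinuousAt (fun p : ℝ × 𝓔 => H.Y b (p.1 / 2) p.2) (t, x) :=
    ContinuousAt.comp (f := fun p : ℝ × 𝓔 => (p.1 / 2, p.2))
      (g := fun p : ℝ × 𝓔 => H.Y b p.1 p.2) h1 (by fun_prop)
  have h3 : ContinuousAt (fun p : ℝ × 𝓔 => (p.1 / 2, H.Y b (p.1 / 2) p.2)) (t, x) :=
    ContinuousAt.prodMk (by fun_prop) h2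
  exact ContinuousAt.comp (f := fun p : ℝ × 𝓔 => (p.1 / 2, H.Y b (p.1 / 2) p.2))
      (g := fun p : ℝ × 𝓔 => H.Y a p.1 p.2) (Y_jc R H a (t / 2) (half_pos ht) _) h3

section conv

variable {Z : ℝ → 𝓔 →L[ℝ] 𝓔} (hZ : JC Z) {f : ℝ → 𝓔} (hf : Continuous f)

include hZ hf

theorem conv_contOn (t : ℝ) : ContinuousOn (fun τ => Z τ (f (t - τ))) (Ioi 0) := by
  intro τ hτ
  refine ContinuousAt.continuousWithinAt ?_
  exact ContinuousAt.comp (f := fun τ : ℝ => (τ, f (t - τ)))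
    (g := fun p : ℝ × 𝓔 => Z p.1 p.2) (hZ τ hτ _) (by fun_prop)

variable {K α : ℝ} (hα : α < 1) (hb : ∀ τ, 0 < τ → τ ≤ 1 → ∀ r, ‖Z τ (f r)‖ ≤ K * τ ^ (-α))

include hα hb

theorem conv_int {t : ℝ} (ht : 0 ≤ t) (ht1 : t ≤ 1) :
    IntegrableOn (fun τ => Z τ (f (t - τ))) (Ioc 0 t) := by
  have h1 : IntegrableOn (fun τ : ℝ => K * τ ^ (-α)) (Ioc 0 t) :=
    ((intervalIntegrable_iff_integrableOn_Ioc_of_le ht).1
      (intervalIntegral.intervalIntegrable_rpow' (by linarith))).const_mul K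
  refine Integrable.mono' h1 ?_ ?_
  · exact ((conv_contOn hZ hf t).mono Ioc_subset_Ioi_self).aestronglyMeasurable measurableSet_Ioc
  · filter_upwards [ae_restrict_mem measurableSet_Ioc] with τ hτ
    exact hb τ hτ.1 (hτ.2.trans ht1) _

theorem conv_norm {t : ℝ} (ht : 0 ≤ t) (ht1 : t ≤ 1) :
    ‖conv Z f t‖ ≤ K * (t ^ (1 - α) / (1 - α)) := by
  have h1 : IntervalIntegrable (fun τ : ℝ => K * τ ^ (-α)) volume 0 t :=
    (intervalIntegral.intervalIntegrable_rpow' (by linarith)).const_mul K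
  have h2 := intervalIntegral.norm_integral_le_of_norm_le ht (f := fun τ => Z τ (f (t - τ)))
    (g := fun τ : ℝ => K * τ ^ (-α)) (Eventually.of_forall fun τ hτ => hb τ hτ.1 (hτ.2.trans ht1) _) h1
  rw [intervalIntegral.integral_const_mul, integral_rpow (Or.inl (by linarith)),
    Real.zero_rpow (by linarith), sub_zero] at h2
  rw [show 1 - α = -α + 1 by ring]
  exact h2

theorem conv_continuousOn {T : ℝ} (hT1 : T ≤ 1) :
    ContinuousOn (conv Z f) (Icc 0 T) := by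
  intro t₀ ht₀
  have hT : 0 ≤ T := ht₀.1.trans ht₀.2
  have heq : ∀ t ∈ Icc 0 T, conv Z f t = ∫ τ in Ioc 0 T, indicator (Iic t)
      (fun τ => Z τ (f (t - τ))) τ := by
    intro t ht
    rw [conv, intervalIntegral.integral_of_le ht.1, setIntegral_indicator measurableSet_Iic]
    congr 2
    ext τ
    simp only [mem_Ioc, mem_inter_iff, mem_Iic]
    constructor
    · rintro ⟨h1, h2⟩; exact ⟨⟨h1, h2.trans ht.2⟩, h2⟩
    · rintro ⟨⟨h1, -⟩, h2⟩; exact ⟨h1, h2⟩
  have key : ContinuousWithinAt (fun t => ∫ τ in Ioc 0 T, indicator (Iic t)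
      (fun τ => Z τ (f (t - τ))) τ) (Icc 0 T) t₀ := by
    refine continuousWithinAt_of_dominated (bound := fun τ : ℝ => K * τ ^ (-α)) ?_ ?_ ?_ ?_
    · refine Eventually.of_forall fun t => ?_
      exact (((conv_contOn hZ hf t).mono Ioc_subset_Ioi_self).aestronglyMeasurable
        measurableSet_Ioc).indicator measurableSet_Iic
    · filter_upwards [self_mem_nhdsWithin] with t ht
      filter_upwards [ae_restrict_mem measurableSet_Ioc] with τ hτ
      have h1 := hb τ hτ.1 (hτ.2.trans hT1) (t - τ)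
      by_cases h : τ ∈ Iic t
      · rw [indicator_of_mem h]; exact h1
      · rw [indicator_of_notMem h, norm_zero]; exact (norm_nonneg _).trans h1
    · exact ((intervalIntegrable_iff_integrableOn_Ioc_of_le hT).1
        (intervalIntegral.intervalIntegrable_rpow' (by linarith))).const_mul K
    · have hne : ∀ᵐ τ ∂(volume.restrict (Ioc 0 T)), τ ≠ t₀ :=
        ae_restrict_of_ae (Measure.ae_ne volume t₀)
      filter_upwards [hne, ae_restrict_mem measurableSet_Ioc] with τ hτ hτ'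
      rcases lt_or_gt_of_ne hτ with h | h
      · have h1 : ContinuousWithinAt (fun t => Z τ (f (t - τ))) (Icc 0 T) t₀ := by
          refine Continuous.continuousWithinAt ?_
          fun_prop
        refine h1.congr_of_eventuallyEq ?_ ?_
        · filter_upwards [mem_nhdsWithin_of_mem_nhds (Ioi_mem_nhds h)] with t ht
          exact indicator_of_mem (mem_Iic.2 (le_of_lt (mem_Ioi.1 ht))) _
        · exact indicator_of_mem (mem_Iic.2 (le_of_lt h)) _
      · have h1 : ContinuousWithinAt (fun _ : ℝ => (0 : 𝓔)) (Icc 0 T) t₀ :=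
          continuousWithinAt_const
        refine h1.congr_of_eventuallyEq ?_ ?_
        · filter_upwards [mem_nhdsWithin_of_mem_nhds (Iio_mem_nhds h)] with t ht
          exact indicator_of_notMem (fun h' => absurd (mem_Iic.1 h') (not_le.2 (mem_Iio.1 ht))) _
        · exact indicator_of_notMem (fun h' => absurd (mem_Iic.1 h') (not_le.2 h)) _
  refine key.congr (fun t ht => heq t ht) (heq t₀ ht₀)

end conv

/-- Hille's lemma for Duhamel integrals. -/
theorem conv_gen [CompleteSpace 𝓔] {Z : ℝ → 𝓔 →L[ℝ] 𝓔} {B : Type} [Fintype B]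
    {Z' : B → ℝ → 𝓔 →L[ℝ] 𝓔} {c : B → ℝ} {g : Γ} {f : ℝ → 𝓔} {t : ℝ} (ht : 0 ≤ t)
    (h1 : IntegrableOn (fun τ => Z τ (f (t - τ))) (Ioc 0 t))
    (h2 : ∀ b, IntegrableOn (fun τ => Z' b τ (f (t - τ))) (Ioc 0 t))
    (h : ∀ τ, 0 < τ → ∀ x, R.HasGen g (Z τ x) (∑ b, c b • Z' b τ x)) :
    R.HasGen g (conv Z f t) (∑ b, c b • conv (Z' b) f t) := by
  have h3 := hille R g (μ := volume.restrict (Ioc 0 t)) (φ := fun τ => Z τ (f (t - τ)))
    (φ' := fun τ => ∑ b, c b • Z' b τ (f (t - τ))) h1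
    (integrable_finsetSum _ fun b _ => (h2 b).smul (c b)) (by
      filter_upwards [ae_restrict_mem measurableSet_Ioc] with τ hτ
      exact h τ hτ.1 _)
  rw [integral_finsetSum (f := fun b τ => c b • Z' b τ (f (t - τ))) _
    fun b _ => (h2 b).smul (c b)] at h3
  simp only [integral_smul] at h3
  unfold conv
  simp only [intervalIntegral.integral_of_le ht]
  exact h3

/-- The integral of `τ ^ (-5/4)`. -/
theorem int_five {s t : ℝ} (hs : 0 < s) (hst : s ^ 2 ≤ t) :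
    ∫ τ in (s ^ 2)..t, τ ^ (-(5 / 4) : ℝ) ≤ 4 * s ^ (-(1 / 2) : ℝ) := by
  have hs2 : 0 < s ^ 2 := by positivity
  rw [integral_rpow (Or.inr ⟨by norm_num, fun h => by
    rw [uIcc_of_le hst] at h; exact absurd h.1 (not_le.2 hs2)⟩)]
  rw [show (-(5 / 4) + 1 : ℝ) = -(1 / 4) by norm_num]
  have h1 : (s ^ 2) ^ (-(1 / 4) : ℝ) = s ^ (-(1 / 2) : ℝ) := by
    rw [← Real.rpow_natCast s 2, ← Real.rpow_mul hs.le]; norm_num
  rw [h1]
  have h2 : 0 ≤ t ^ (-(1 / 4) : ℝ) := Real.rpow_nonneg (hs2.le.trans hst) _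
  have h3 : (t ^ (-(1 / 4) : ℝ) - s ^ (-(1 / 2) : ℝ)) / -(1 / 4) =
      4 * s ^ (-(1 / 2) : ℝ) - 4 * t ^ (-(1 / 4) : ℝ) := by ring
  rw [h3]
  linarith

/-- The Hölder estimate for the second derivatives. -/
theorem conv_hol [CompleteSpace 𝓔] (a b : A) {f : ℝ → 𝓔} (hf : Continuous f) {M : ℝ}
    (hM : ∀ r, Hol R M (f r)) {t : ℝ} (ht : 0 ≤ t) (ht1 : t ≤ 1) (g : Γ) {s : ℝ}
    (hs : s ∈ Icc (0 : ℝ) 1) :
    ‖R.T g s (conv (ZZ R H a b) f t) - conv (ZZ R H a b) f t‖ ≤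
      (64 + 32 * Fintype.card A) * M * √s := by
  have hM0 : 0 ≤ M := (norm_nonneg _).trans (hM 0).1
  have hA0 : (0 : ℝ) ≤ Fintype.card A := Nat.cast_nonneg _
  rcases eq_or_lt_of_le hs.1 with h0 | hs0
  · rw [← h0, R.T_zero, sub_self, norm_zero]
    positivity
  have hint := conv_int (ZZ_jc R H a b) hf (α := 3 / 4) (K := 4 * M) (by norm_num)
    (fun τ h1 h2 r => ZZ_hol R H a b (hM r) h1 h2) ht ht1
  have hint' : IntervalIntegrable (fun τ => ZZ R H a b τ (f (t - τ))) volume 0 t :=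
    (intervalIntegrable_iff_integrableOn_Ioc_of_le ht).2 hint
  obtain ⟨D, hD⟩ : ∃ D : ℝ → 𝓔, D = fun τ => R.T g s (ZZ R H a b τ (f (t - τ))) -
      ZZ R H a b τ (f (t - τ)) := ⟨_, rfl⟩
  have hTint : IntervalIntegrable (fun τ => R.T g s (ZZ R H a b τ (f (t - τ)))) volume 0 t := by
    rw [intervalIntegrable_iff_integrableOn_Ioc_of_le ht]
    exact (R.T g s).integrable_comp hint
  have hDint : IntervalIntegrable D volume 0 t := by
    rw [hD]; exact hTint.sub hint'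
  have e : R.T g s (conv (ZZ R H a b) f t) - conv (ZZ R H a b) f t = ∫ τ in (0 : ℝ)..t, D τ := by
    rw [conv, ← (R.T g s).intervalIntegral_comp_comm hint', hD,
      intervalIntegral.integral_sub hTint hint']
  have b1 : ∀ τ, 0 < τ → τ ≤ 1 → ‖D τ‖ ≤ 8 * M * τ ^ (-(3 / 4) : ℝ) := by
    intro τ h1 h2
    rw [hD]
    refine (norm_sub_le _ _).trans ?_
    rw [R.norm_T]
    have := ZZ_hol R H a b (hM (t - τ)) h1 h2
    linarith
  have b2 : ∀ τ, 0 < τ → τ ≤ 1 → ‖D τ‖ ≤ (8 * Fintype.card A * M * s) * τ ^ (-(5 / 4) : ℝ) := by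
    intro τ h1 h2
    rw [hD]
    refine (ZZ_diff R H g a b (hM (t - τ)) h1 h2 hs.1).trans_eq ?_
    ring
  have i1 : ∀ u, 0 ≤ u → u ≤ t → ‖∫ τ in (0 : ℝ)..u, D τ‖ ≤ 32 * M * u ^ (1 / 4 : ℝ) := by
    intro u hu hut
    have h1 : IntervalIntegrable (fun τ : ℝ => (8 * M) * τ ^ (-(3 / 4) : ℝ)) volume 0 u :=
      (intervalIntegral.intervalIntegrable_rpow' (by norm_num)).const_mul _
    have h2 := intervalIntegral.norm_integral_le_of_norm_le hu (f := D)
      (g := fun τ : ℝ => (8 * M) * τ ^ (-(3 / 4) : ℝ))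
      (Eventually.of_forall fun τ hτ => b1 τ hτ.1 (hτ.2.trans (hut.trans ht1))) h1
    rw [intervalIntegral.integral_const_mul, integral_rpow (Or.inl (by norm_num)),
      Real.zero_rpow (by norm_num), sub_zero,
      show (-(3 / 4) + 1 : ℝ) = 1 / 4 by norm_num] at h2
    refine h2.trans_eq ?_
    ring
  have hsq : √s = s ^ (1 / 2 : ℝ) := Real.sqrt_eq_rpow s
  have hsq2 : (s ^ 2) ^ (1 / 4 : ℝ) = √s := by
    rw [hsq, ← Real.rpow_natCast s 2, ← Real.rpow_mul hs0.le]; norm_num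
  rw [e]
  have hnn : 0 ≤ M * √s := by positivity
  rcases le_total t (s ^ 2) with hts | hts
  · refine (i1 t ht le_rfl).trans ?_
    have h1 : t ^ (1 / 4 : ℝ) ≤ √s := by
      rw [← hsq2]; exact Real.rpow_le_rpow ht hts (by norm_num)
    calc 32 * M * t ^ (1 / 4 : ℝ) ≤ 32 * M * √s := mul_le_mul_of_nonneg_left h1 (by positivity)
      _ ≤ (64 + 32 * Fintype.card A) * M * √s := by
          have : 0 ≤ (32 + 32 * (Fintype.card A : ℝ)) * (M * √s) := by positivity
          nlinarith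
  · have hs2 : 0 < s ^ 2 := by positivity
    have hi1 : IntervalIntegrable D volume 0 (s ^ 2) :=
      hDint.mono_set (by rw [uIcc_of_le hs2.le, uIcc_of_le ht]; exact Icc_subset_Icc le_rfl hts)
    have hi2 : IntervalIntegrable D volume (s ^ 2) t :=
      hDint.mono_set (by rw [uIcc_of_le hts, uIcc_of_le ht]; exact Icc_subset_Icc hs2.le le_rfl)
    rw [← intervalIntegral.integral_add_adjacent_intervals hi1 hi2]
    refine (norm_add_le _ _).trans ?_
    have g1 := i1 (s ^ 2) hs2.le hts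
    rw [hsq2] at g1
    have h1 : IntervalIntegrable (fun τ : ℝ => (8 * Fintype.card A * M * s) * τ ^ (-(5 / 4) : ℝ))
        volume (s ^ 2) t :=
      (intervalIntegral.intervalIntegrable_rpow (Or.inr fun h => by
        rw [uIcc_of_le hts] at h; exact absurd h.1 (not_le.2 hs2))).const_mul _
    have g2 := intervalIntegral.norm_integral_le_of_norm_le hts (f := D)
      (g := fun τ : ℝ => (8 * Fintype.card A * M * s) * τ ^ (-(5 / 4) : ℝ))
      (Eventually.of_forall fun τ hτ => b2 τ (hs2.trans hτ.1) (hτ.2.trans ht1)) h1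
    rw [intervalIntegral.integral_const_mul] at g2
    have g3 := mul_le_mul_of_nonneg_left (int_five hs0 hts)
      (by positivity : 0 ≤ 8 * (Fintype.card A : ℝ) * M * s)
    have g4 : 8 * (Fintype.card A : ℝ) * M * s * (4 * s ^ (-(1 / 2) : ℝ)) =
        32 * Fintype.card A * M * √s := by
      have : s * s ^ (-(1 / 2) : ℝ) = √s := by
        rw [hsq]
        nth_rw 1 [← Real.rpow_one s]
        rw [← Real.rpow_add hs0]; norm_num
      calc _ = 32 * Fintype.card A * M * (s * s ^ (-(1 / 2) : ℝ)) := by ring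
        _ = _ := by rw [this]
    rw [g4] at g3
    calc _ ≤ 32 * M * √s + 32 * Fintype.card A * M * √s := add_le_add g1 (g2.trans g3)
      _ ≤ (64 + 32 * Fintype.card A) * M * √s := by nlinarith

/-- The substitution `τ = t - r`. -/
theorem conv_eq (Z : ℝ → 𝓔 →L[ℝ] 𝓔) (f : ℝ → 𝓔) (t : ℝ) :
    conv Z f t = ∫ r in (0 : ℝ)..t, Z (t - r) (f r) := by
  have := intervalIntegral.integral_comp_sub_left (a := 0) (b := t)
    (fun τ => Z τ (f (t - τ))) t
  simp only [sub_sub_cancel, sub_self, sub_zero] at this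
  rw [conv, this]

end Pool.Agent.RF.H53
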